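import Pool.Agent.Helper834.Conseq

/-!
The `11/8` inequality for the intersection forms of symplectic triple planes with branch curve of
degree at most `64`, and of symplectic triple coverings of the Hirzebruch surfaces `F_k` with branch
curve of degree at most `64` over the base (`k ≥ 1` arbitrary; `(k, d) ≠ (2, 48), (2, 60)`).

For a simply connected `X` the rank of the intersection form is `c₂ - 2` and the signature is
`(c₁² - 2 c₂) / 3`; an even form has signature divisible by `16` (Rokhlin).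
-/

namespace Pool.Agent.Results.MP_cb9bff_gt.ElevenEighths

open Pool.Agent.Helper834

/-- `c₁²` of a covering of degree `N` of the projective plane. -/
def c1sqP {N d : ℕ} (X : Covering N d 1) : ℚ := 9 * N - 9 / 2 * d + (X.genus - 1)

/-- `c₂` of a covering of degree `N` of the projective plane. -/
def c2P {N d : ℕ} (X : Covering N d 1) : ℚ := 3 * N + 2 * (X.genus - 1) - X.κ

/-- The signature of a covering of degree `N` of the projective plane. -/
def signP {N d : ℕ} (X : Covering N d 1) : ℚ := (c1sqP X - 2 * c2P X) / 3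

/-- The rank of the intersection form of a simply connected covering of the projective plane. -/
def rankP {N d : ℕ} (X : Covering N d 1) : ℚ := c2P X - 2

/-- `c₁²` of a covering of degree `N` of the Hirzebruch surface `F_k`. -/
def c1sqF {N d k : ℕ} (X : Covering N d k) : ℚ :=
  8 * N - 3 / 2 * d * (k + 2) + (X.genus - 1)

/-- `c₂` of a covering of degree `N` of the Hirzebruch surface `F_k`. -/
def c2F {N d k : ℕ} (X : Covering N d k) : ℚ := 4 * N + 2 * (X.genus - 1) - X.κ

/-- The signature of a covering of degree `N` of the Hirzebruch surface `F_k`. -/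
def signF {N d k : ℕ} (X : Covering N d k) : ℚ := (c1sqF X - 2 * c2F X) / 3

/-- The rank of the intersection form of a simply connected covering of `F_k`. -/
def rankF {N d k : ℕ} (X : Covering N d k) : ℚ := c2F X - 2

theorem arithF {e k c : ℕ} {m : ℤ} (he : e ≤ 32) (h1 : 1 ≤ e) (hk : 1 ≤ k)
    (hex : ¬ (k = 2 ∧ (e = 24 ∨ e = 30)))
    (h : 4 * ((3 * c : ℕ) : ℤ) ≤
      k * ((2 * e : ℕ) : ℤ) * (((2 * e : ℕ) : ℤ) - 1) +
        2 * k * ((2 * e / 6 : ℕ) : ℤ) * (((2 * e / 6 : ℕ) : ℤ) + 1) -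
        2 * ((2 * e / 6 : ℕ) : ℤ) +
        2 * (((2 * e : ℕ) : ℤ) - 1 - 2 * ((2 * e / 6 : ℕ) : ℤ)) * ((k * (2 * e) / 6 : ℕ) : ℤ))
    (hm : 5 * (c : ℤ) - 2 * k * e * e = 16 * m)
    (hle : 5 * (c : ℤ) - 2 * k * e * e ≤ 10 + k * (2 * e) * (2 * e - 1) - 4 * e - 9 * c) :
    11 * (5 * (c : ℤ) - 2 * k * e * e) ≤
      8 * (10 + k * (2 * e) * (2 * e - 1) - 4 * e - 9 * c) := by
  rcases Nat.lt_or_ge k 10 with hk7 | hk7
  · interval_cases k <;> interval_cases e <;>
      first
        | (exfalso; apply hex; norm_num; done)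
        | (norm_num at h hm hle ⊢ <;> omega)
  · have hf : 6 * ((k * (2 * e) / 6 : ℕ) : ℤ) ≤ k * (2 * e) := by
      have : 6 * (k * (2 * e) / 6) ≤ k * (2 * e) := Nat.mul_div_le _ _
      exact_mod_cast this
    generalize ((k * (2 * e) / 6 : ℕ) : ℤ) = f at h hf
    have hk7' : (10 : ℤ) ≤ k := by exact_mod_cast hk7
    clear hm hle hex
    interval_cases e <;> norm_num at h hf ⊢ <;> linarith

theorem arithP {e c : ℕ} {m : ℤ} (he : e ≤ 32) (h1 : 1 ≤ e)
    (h : 4 * ((3 * c : ℕ) : ℤ) ≤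
      1 * ((2 * e : ℕ) : ℤ) * (((2 * e : ℕ) : ℤ) - 1) +
        2 * 1 * ((2 * e / 6 : ℕ) : ℤ) * (((2 * e / 6 : ℕ) : ℤ) + 1) -
        2 * ((2 * e / 6 : ℕ) : ℤ) +
        2 * (((2 * e : ℕ) : ℤ) - 1 - 2 * ((2 * e / 6 : ℕ) : ℤ)) * ((1 * (2 * e) / 6 : ℕ) : ℤ))
    (hm : 5 * (c : ℤ) - 2 * e * e + 3 = 16 * m)
    (hle : 5 * (c : ℤ) - 2 * e * e + 3 ≤ 7 + (2 * e) * (2 * e - 1) - 4 * e - 9 * c) :
    11 * (5 * (c : ℤ) - 2 * e * e + 3) ≤
      8 * (7 + (2 * e) * (2 * e - 1) - 4 * e - 9 * c) := by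
  interval_cases e <;> norm_num at h hm hle ⊢ <;> omega

theorem planes {d : ℕ} (hd : d ≤ 64) (X : Covering 3 d 1) (m : ℤ) (hm : signP X = 16 * m)
    (hle : signP X ≤ rankP X) : 11 * signP X ≤ 8 * rankP X := by
  have h := X.ineq (by norm_num) le_rfl
  have h2 := X.two_le (by norm_num)
  obtain ⟨e, he⟩ := X.even_d
  obtain ⟨c, hc⟩ := X.three_dvd_three
  have hde : d = 2 * e := by omega
  subst hde
  have hn := X.nodesPos_three
  have hn' := X.nodesNeg_three
  rw [hn, hn', hc] at h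
  simp only [Nat.cast_zero, mul_zero, add_zero] at h
  have hs : signP X = ((5 * (c : ℤ) - 2 * e * e + 3 : ℤ) : ℚ) := by
    simp only [signP, c1sqP, c2P, Covering.genus, Covering.ν, hn, hn', hc]
    push_cast
    ring
  have hr : rankP X = ((7 + (2 * e) * (2 * e - 1) - 4 * e - 9 * c : ℤ) : ℚ) := by
    simp only [rankP, c2P, Covering.genus, Covering.ν, hn, hn', hc]
    push_cast
    ring
  rw [hs, hr] at hle ⊢
  rw [hs] at hm
  have hm' : 5 * (c : ℤ) - 2 * e * e + 3 = 16 * m := by exact_mod_cast hm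
  have hle' : 5 * (c : ℤ) - 2 * e * e + 3 ≤ 7 + (2 * e) * (2 * e - 1) - 4 * e - 9 * c := by
    exact_mod_cast hle
  have goal := arithP (by omega) (by omega) h hm' hle'
  exact_mod_cast goal

theorem hirzebruch {d k : ℕ} (hd : d ≤ 64) (hk : 1 ≤ k) (hex : ¬ (k = 2 ∧ (d = 48 ∨ d = 60)))
    (X : Covering 3 d k) (m : ℤ) (hm : signF X = 16 * m) (hle : signF X ≤ rankF X) :
    11 * signF X ≤ 8 * rankF X := by
  have h := X.ineq (by norm_num) hk
  have h2 := X.two_le (by norm_num)
  obtain ⟨e, he⟩ := X.even_d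
  obtain ⟨c, hc⟩ := X.three_dvd_three
  have hde : d = 2 * e := by omega
  subst hde
  have hn := X.nodesPos_three
  have hn' := X.nodesNeg_three
  rw [hn, hn', hc] at h
  simp only [Nat.cast_zero, mul_zero, add_zero] at h
  have hs : signF X = ((5 * (c : ℤ) - 2 * k * e * e : ℤ) : ℚ) := by
    simp only [signF, c1sqF, c2F, Covering.genus, Covering.ν, hn, hn', hc]
    push_cast
    ring
  have hr : rankF X = ((10 + k * (2 * e) * (2 * e - 1) - 4 * e - 9 * c : ℤ) : ℚ) := by
    simp only [rankF, c2F, Covering.genus, Covering.ν, hn, hn', hc]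
    push_cast
    ring
  rw [hs, hr] at hle ⊢
  rw [hs] at hm
  have hm' : 5 * (c : ℤ) - 2 * k * e * e = 16 * m := by exact_mod_cast hm
  have hle' : 5 * (c : ℤ) - 2 * k * e * e ≤ 10 + k * (2 * e) * (2 * e - 1) - 4 * e - 9 * c := by
    exact_mod_cast hle
  have goal := arithF (by omega) (by omega) hk (by omega) h hm' hle'
  exact_mod_cast goal

/-- The intersection form (rank `rankP`, signature `signP`) of a symplectic triple plane with
branch curve of degree `d ≤ 64`, respectively (`rankF`, `signF`) of a symplectic triple covering of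
`F_k`, `k ≥ 1`, with branch curve of degree `d ≤ 64` over the base, `(k, d) ≠ (2, 48), (2, 60)`,
satisfies `rank ≥ (11 / 8) signature` if the signature is divisible by `16` (which holds for an even
form) and at most the rank. -/
theorem result :
    (∀ (d : ℕ) (X : Covering 3 d 1), d ≤ 64 → (∃ m : ℤ, signP X = 16 * m) →
      signP X ≤ rankP X → 11 / 8 * signP X ≤ rankP X) ∧
    (∀ (d k : ℕ) (X : Covering 3 d k), 1 ≤ k → d ≤ 64 → ¬ (k = 2 ∧ (d = 48 ∨ d = 60)) →
      (∃ m : ℤ, signF X = 16 * m) → signF X ≤ rankF X → 11 / 8 * signF X ≤ rankF X) := by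
  refine ⟨fun d X hd ⟨m, hm⟩ hle => ?_, fun d k X hk hd hex ⟨m, hm⟩ hle => ?_⟩
  · have := planes hd X m hm hle
    linarith
  · have := hirzebruch hd hk hex X m hm hle
    linarith

end Pool.Agent.Results.MP_cb9bff_gt.ElevenEighths
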